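import Pool.Agent.H78.STN.Stmts2

/-!
# Board `sto`, row EN2: computation for `20000 ≤ m0 < 30002`
-/

set_option autoImplicit false

namespace Pool.STN

/-- checks the numbers `s, s + 2, ..., s + 2 (n - 1)` -/
def en2_blk : ℕ → ℕ → Bool
  | 0, _ => true
  | n + 1, s => (Nat.beq (s % 3) 0 || sim 70 s s 3) && en2_blk n (s + 2)

theorem en2_spec : ∀ n s : ℕ, en2_blk n s = true → ∀ m : ℕ, s ≤ m → m < s + 2 * n →
    m % 2 = s % 2 → m % 3 ≠ 0 → sim 70 m m 3 = true := by
  intro n
  induction n with
  | zero =>
    intro s _ m h1 h2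
    omega
  | succ n ih =>
    intro s h m h1 h2 h3 h4
    rw [en2_blk, Bool.and_eq_true, Bool.or_eq_true] at h
    obtain ⟨h5, h6⟩ := h
    by_cases h7 : m = s
    · subst h7
      rcases h5 with h5 | h5
      · exact absurd (Nat.eq_of_beq_eq_true h5) h4
      · exact h5
    · exact ih (s + 2) h6 m (by omega) (by omega) (by omega) h4

theorem en2_b0 : en2_blk 500 20000 = true := by decide +kernel

theorem en2_b1 : en2_blk 500 21000 = true := by decide +kernel

theorem en2_b2 : en2_blk 500 22000 = true := by decide +kernel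

theorem en2_b3 : en2_blk 500 23000 = true := by decide +kernel

theorem en2_b4 : en2_blk 500 24000 = true := by decide +kernel

theorem en2_b5 : en2_blk 500 25000 = true := by decide +kernel

theorem en2_b6 : en2_blk 500 26000 = true := by decide +kernel

theorem en2_b7 : en2_blk 500 27000 = true := by decide +kernel

theorem en2_b8 : en2_blk 500 28000 = true := by decide +kernel

theorem en2_b9 : en2_blk 500 29000 = true := by decide +kernel

/-- **EN2**. -/
theorem EN2_thm : ENStmt 2 := by
  intro m h1 h2 h3 h4 _ _ _ _ _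
  rcases Nat.lt_or_ge m 21000 with g0 | g0
  · exact en2_spec 500 20000 en2_b0 m (by omega) (by omega) (by omega) h4
  rcases Nat.lt_or_ge m 22000 with g1 | g1
  · exact en2_spec 500 21000 en2_b1 m (by omega) (by omega) (by omega) h4
  rcases Nat.lt_or_ge m 23000 with g2 | g2
  · exact en2_spec 500 22000 en2_b2 m (by omega) (by omega) (by omega) h4
  rcases Nat.lt_or_ge m 24000 with g3 | g3
  · exact en2_spec 500 23000 en2_b3 m (by omega) (by omega) (by omega) h4
  rcases Nat.lt_or_ge m 25000 with g4 | g4
  · exact en2_spec 500 24000 en2_b4 m (by omega) (by omega) (by omega) h4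
  rcases Nat.lt_or_ge m 26000 with g5 | g5
  · exact en2_spec 500 25000 en2_b5 m (by omega) (by omega) (by omega) h4
  rcases Nat.lt_or_ge m 27000 with g6 | g6
  · exact en2_spec 500 26000 en2_b6 m (by omega) (by omega) (by omega) h4
  rcases Nat.lt_or_ge m 28000 with g7 | g7
  · exact en2_spec 500 27000 en2_b7 m (by omega) (by omega) (by omega) h4
  rcases Nat.lt_or_ge m 29000 with g8 | g8
  · exact en2_spec 500 28000 en2_b8 m (by omega) (by omega) (by omega) h4
  exact en2_spec 500 29000 en2_b9 m (by omega) (by omega) (by omega) h4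

end Pool.STN
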