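import Pool.Agent.H78.STN.Stmts

/-!
# Board `stn`, row LCB: `lcm (1, ..., N) 2 ^ N ≤ 7 ^ N`
-/

set_option autoImplicit false

namespace Pool.STN

theorem lcb_succ (m : ℕ) : Nat.lcmUpto (m + 1) ≤ Nat.lcmUpto m * (m + 1) := by
  refine Nat.le_of_dvd (Nat.mul_pos (Nat.lcmUpto_pos m) (Nat.succ_pos m)) ?_
  unfold Nat.lcmUpto
  refine Finset.lcm_dvd fun b hb => ?_
  rw [Finset.mem_Icc] at hb
  by_cases h : b ≤ m
  · exact (Finset.dvd_lcm (f := id) (Finset.mem_Icc.mpr ⟨hb.1, h⟩)).mul_right _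
  · have h1 : b = m + 1 := by omega
    subst h1
    exact dvd_mul_left _ _

theorem lcb_add (m c : ℕ) : ∀ r : ℕ, m + r ≤ c → Nat.lcmUpto (m + r) ≤ Nat.lcmUpto m * c ^ r := by
  intro r
  induction r with
  | zero => intro _; simp
  | succ r ih =>
    intro h
    calc Nat.lcmUpto (m + r + 1) ≤ Nat.lcmUpto (m + r) * (m + r + 1) := lcb_succ _
      _ ≤ (Nat.lcmUpto m * c ^ r) * c := Nat.mul_le_mul (ih (by omega)) (by omega)
      _ = Nat.lcmUpto m * c ^ (r + 1) := by ring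

theorem lcb_step (m : ℕ) (hm : 1205 ≤ m) : 13824 * (m + 6) ^ 5 ≤ 16807 * m ^ 5 := by
  have h1 : (1205 * (m + 6)) ^ 5 ≤ (1211 * m) ^ 5 := Nat.pow_le_pow_left (by omega) 5
  rw [mul_pow, mul_pow] at h1
  have h2 : 13824 * 1211 ^ 5 ≤ 16807 * 1205 ^ 5 := by norm_num
  have h3 : 1205 ^ 5 * (13824 * (m + 6) ^ 5) ≤ 1205 ^ 5 * (16807 * m ^ 5) := by
    calc 1205 ^ 5 * (13824 * (m + 6) ^ 5) = 13824 * (1205 ^ 5 * (m + 6) ^ 5) := by ring
      _ ≤ 13824 * (1211 ^ 5 * m ^ 5) := Nat.mul_le_mul_left _ h1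
      _ = (13824 * 1211 ^ 5) * m ^ 5 := by ring
      _ ≤ (16807 * 1205 ^ 5) * m ^ 5 := Nat.mul_le_mul_right _ h2
      _ = 1205 ^ 5 * (16807 * m ^ 5) := by ring
  exact Nat.le_of_mul_le_mul_left h3 (by norm_num)

theorem lcb_pow (n : ℕ) (hn : 200 ≤ n) : 13824 ^ n * (6 * n + 5) ^ 5 ≤ 16807 ^ n := by
  induction n, hn using Nat.le_induction with
  | base => norm_num
  | succ n hn ih =>
    have h := lcb_step (6 * n + 5) (by omega)
    calc 13824 ^ (n + 1) * (6 * (n + 1) + 5) ^ 5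
        = 13824 ^ n * (13824 * (6 * n + 5 + 6) ^ 5) := by
          rw [show 6 * (n + 1) + 5 = 6 * n + 5 + 6 by ring, pow_succ]
          ring
      _ ≤ 13824 ^ n * (16807 * (6 * n + 5) ^ 5) := Nat.mul_le_mul_left _ h
      _ = (13824 ^ n * (6 * n + 5) ^ 5) * 16807 := by ring
      _ ≤ 16807 ^ n * 16807 := Nat.mul_le_mul_right _ ih
      _ = 16807 ^ (n + 1) := by ring

/-- **LCB**. -/
theorem LCB_thm (h1 : MULStmt) (h2 : MLBStmt) (h3 : LC0Stmt) : LCBStmt := by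
  intro N
  induction N using Nat.strong_induction_on with
  | _ N ih =>
    by_cases hN : N < 1200
    · exact h3 N hN
    obtain ⟨n, r, hr, rfl⟩ : ∃ n r, r ≤ 5 ∧ N = 6 * n + r :=
      ⟨N / 6, N % 6, by omega, by omega⟩
    have hn : 200 ≤ n := by omega
    have i1 := ih n (by omega)
    have i2 : Nat.lcmUpto (6 * n) ≤ Nat.lcmUpto n * 432 ^ n := by
      have j0 : 0 < (3 * n).factorial * (2 * n).factorial * n.factorial := by positivity
      have j1 := Nat.le_of_dvd (Nat.mul_pos (Nat.lcmUpto_pos n) (Nat.factorial_pos _)) (h1 n)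
      have j2 : Nat.lcmUpto n * (6 * n).factorial ≤
          Nat.lcmUpto n * (432 ^ n * ((3 * n).factorial * (2 * n).factorial * n.factorial)) :=
        Nat.mul_le_mul_left _ (h2 n)
      have j3 := j1.trans j2
      rw [← mul_assoc (Nat.lcmUpto n)] at j3
      exact Nat.le_of_mul_le_mul_right j3 j0
    have i3 : Nat.lcmUpto (6 * n + r) ≤ Nat.lcmUpto (6 * n) * (6 * n + 5) ^ 5 := by
      refine (lcb_add (6 * n) (6 * n + 5) r (by omega)).trans ?_
      exact Nat.mul_le_mul_left _ (Nat.pow_le_pow_right (by omega) hr)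
    have i4 : 2 ^ r ≤ 7 ^ r := Nat.pow_le_pow_left (by norm_num) r
    calc Nat.lcmUpto (6 * n + r) * 2 ^ (6 * n + r)
        ≤ (Nat.lcmUpto n * 432 ^ n * (6 * n + 5) ^ 5) * 2 ^ (6 * n + r) :=
          Nat.mul_le_mul_right _ (i3.trans (Nat.mul_le_mul_right _ i2))
      _ = (Nat.lcmUpto n * 2 ^ n) * (13824 ^ n * (6 * n + 5) ^ 5) * 2 ^ r := by
          rw [show (13824 : ℕ) = 432 * 2 ^ 5 by norm_num, mul_pow, ← pow_mul, pow_add,
            show 6 * n = n + 5 * n by ring, pow_add]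
          ring
      _ ≤ 7 ^ n * 16807 ^ n * 7 ^ r :=
          Nat.mul_le_mul (Nat.mul_le_mul i1 (lcb_pow n hn)) i4
      _ = 7 ^ (6 * n + r) := by
          rw [show (16807 : ℕ) = 7 ^ 5 by norm_num, ← pow_mul, ← pow_add, ← pow_add]
          congr 1
          ring

end Pool.STN
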